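import Pool.Agent.Y755.FK.Stm

/-!
# Project FK: the class group coefficients (S_ALG)
-/

set_option autoImplicit false

open Finset

open scoped Classical

namespace Pool.Agent.Y473.FK.Alg

open Pool.Agent.Y755.FK

/-- `b` is a norm from `ℚ(√-n)`. -/
def Rep (n b : ℕ) : Prop := ∃ u v : ℚ, (b : ℚ) = u ^ 2 + n * v ^ 2

theorem ideal_sq_inj {R : Type*} [CommRing R] [IsDedekindDomain R] {I I' : Ideal R}
    (h : I ^ 2 = I' ^ 2) : I = I' :=
  pow_left_injective two_ne_zero h

section Count

variable (K : Type) [Field K] [NumberField K]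

/-- The ideal `I` has the square `(b)`. -/
def Sqb (b : ℕ) (I : nonZeroDivisors (Ideal (NumberField.RingOfIntegers K))) : Prop :=
  (I : Ideal (NumberField.RingOfIntegers K)) ^ 2 =
    Ideal.span {((b : ℕ) : NumberField.RingOfIntegers K)}

theorem mk0_sq {b : ℕ} {I : nonZeroDivisors (Ideal (NumberField.RingOfIntegers K))}
    (h : Sqb K b I) : (ClassGroup.mk0 I) ^ 2 = 1 := by
  rw [← map_pow]
  have h1 : (I ^ 2) = ⟨((I ^ 2 : nonZeroDivisors (Ideal (NumberField.RingOfIntegers K))) :
      Ideal (NumberField.RingOfIntegers K)), (I ^ 2).2⟩ := rfl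
  rw [h1, ClassGroup.mk0_eq_one_iff]
  refine ⟨⟨((b : ℕ) : NumberField.RingOfIntegers K), ?_⟩⟩
  exact h

/-- The class of the ideal whose square is `(b)`. -/
noncomputable def clb (b : ℕ) : ClassGroup (NumberField.RingOfIntegers K) :=
  if h : ∃ I : nonZeroDivisors (Ideal (NumberField.RingOfIntegers K)), Sqb K b I then
    ClassGroup.mk0 h.choose else 1

theorem clb_eq {b : ℕ} {I : nonZeroDivisors (Ideal (NumberField.RingOfIntegers K))}
    (h : Sqb K b I) : clb K b = ClassGroup.mk0 I := by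
  unfold clb
  have h1 : ∃ I : nonZeroDivisors (Ideal (NumberField.RingOfIntegers K)), Sqb K b I := ⟨I, h⟩
  rw [dif_pos h1]
  congr 1
  apply Subtype.ext
  apply ideal_sq_inj
  have h2 := h1.choose_spec
  unfold Sqb at h h2
  exact h2.trans h.symm

theorem count (hA1 : S_AMB1) (hA : S_AMB) (hS : S_SQ) (h2 : Module.finrank ℚ K = 2) (n : ℕ)
    (hn : Squarefree n) (hs : ∃ s : K, s ^ 2 = -(n : K)) :
    ((Rn n).divisors.filter (fun b => Rep n b)).card =
      2 * Nat.card {y : ClassGroup (NumberField.RingOfIntegers K) //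
          ∃ x : ClassGroup (NumberField.RingOfIntegers K), x ^ 4 = 1 ∧ x ^ 2 = y} := by
  obtain ⟨hA1a, _⟩ := hA1 K h2 n hn hs
  have hA' := hA K h2 n hn hs
  have hS' := hS K h2 n hn hs
  rw [Nat.card_eq_fintype_card, Fintype.card_subtype]
  have hmaps : (((Rn n).divisors.filter (fun b => Rep n b) : Finset ℕ) : Set ℕ).MapsTo (clb K)
      ((Finset.univ.filter (fun y : ClassGroup (NumberField.RingOfIntegers K) =>
        ∃ x : ClassGroup (NumberField.RingOfIntegers K), x ^ 4 = 1 ∧ x ^ 2 = y) :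
        Finset (ClassGroup (NumberField.RingOfIntegers K))) :
          Set (ClassGroup (NumberField.RingOfIntegers K))) := by
    intro b hb
    rw [Finset.mem_coe, Finset.mem_filter] at hb ⊢
    obtain ⟨hb1, hb2⟩ := hb
    refine ⟨Finset.mem_univ _, ?_⟩
    have hbd := Nat.dvd_of_mem_divisors hb1
    have hbp : 1 ≤ b := Nat.pos_of_mem_divisors hb1
    obtain ⟨I, hI⟩ := hA1a b hbd
    rw [clb_eq K hI]
    obtain ⟨x, hx⟩ := (hS' b hbp I hI).mpr hb2
    refine ⟨x, ?_, hx⟩
    have : x ^ 4 = (x ^ 2) ^ 2 := by rw [← pow_mul]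
    rw [this, hx]
    exact mk0_sq K hI
  rw [Finset.card_eq_sum_card_fiberwise hmaps]
  rw [Finset.sum_congr rfl (g := fun _ => 2), Finset.sum_const, smul_eq_mul, mul_comm]
  intro y hy
  obtain ⟨x, hx4, hx2⟩ := (Finset.mem_filter.mp hy).2
  have hy2 : y ^ 2 = 1 := by
    rw [← hx2, ← pow_mul]
    exact hx4
  rw [← hA' y hy2, Finset.filter_filter]
  congr 1
  refine Finset.filter_congr (fun b hb => ?_)
  have hbd := Nat.dvd_of_mem_divisors hb
  have hbp : 1 ≤ b := Nat.pos_of_mem_divisors hb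
  constructor
  · rintro ⟨_, hb2⟩
    obtain ⟨I, hI⟩ := hA1a b hbd
    refine ⟨I, hI, ?_⟩
    rw [← clb_eq K hI]
    exact hb2
  · rintro ⟨I, hI, hc⟩
    refine ⟨(hS' b hbp I hI).mp ⟨x, ?_⟩, ?_⟩
    · rw [hc]
      exact hx2
    · rw [clb_eq K hI]
      exact hc

end Count

/-- Divisors of `2 n` for odd `n`. -/
theorem card_divisors_two {n : ℕ} (hn : Odd n) (P : ℕ → Prop) :
    ((2 * n).divisors.filter P).card =
      (n.divisors.filter P).card + (n.divisors.filter (fun b => P (2 * b))).card := by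
  have hn0 : n ≠ 0 := by
    rintro rfl
    simp at hn
  have hd : (2 * n).divisors = n.divisors ∪ n.divisors.image (fun b => 2 * b) := by
    ext d
    simp only [Finset.mem_union, Nat.mem_divisors, Finset.mem_image]
    constructor
    · rintro ⟨h1, h2⟩
      rcases Nat.even_or_odd d with he | ho
      · right
        obtain ⟨e, rfl⟩ := even_iff_two_dvd.mp he
        exact ⟨e, ⟨Nat.dvd_of_mul_dvd_mul_left two_pos h1, hn0⟩, rfl⟩
      · left
        refine ⟨?_, hn0⟩
        exact (Nat.Coprime.dvd_of_dvd_mul_left (Nat.Coprime.symm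
          (Nat.coprime_two_left.mpr ho)) h1)
    · rintro (⟨h1, h2⟩ | ⟨e, ⟨h1, h2⟩, rfl⟩)
      · exact ⟨h1.mul_left 2, by positivity⟩
      · exact ⟨Nat.mul_dvd_mul_left 2 h1, by positivity⟩
  have hdisj : Disjoint n.divisors (n.divisors.image (fun b => 2 * b)) := by
    rw [Finset.disjoint_left]
    intro d h1 h2
    obtain ⟨e, _, rfl⟩ := Finset.mem_image.mp h2
    have h3 := Nat.dvd_of_mem_divisors h1
    have h4 : 2 ∣ n := (Dvd.intro e rfl).trans h3
    exact (Nat.not_even_iff_odd.mpr hn) (even_iff_two_dvd.mpr h4)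
  rw [hd, Finset.filter_union, Finset.card_union_of_disjoint
    (Finset.disjoint_filter_filter hdisj)]
  congr 1
  rw [Finset.filter_image, Finset.card_image_of_injective _ (fun a b h => by
    simpa using h)]

theorem rep_one (hL : S_LEG) {b c : ℕ} (hsf : Squarefree (b * c)) (hodd : Odd (b * c)) :
    Rep (b * c) b ↔ Qc 1 1 b c := by
  have hb : Odd b := Nat.Odd.of_mul_left hodd
  have hc : Odd c := Nat.Odd.of_mul_right hodd
  unfold Rep
  rw [hL.1 b c hsf]
  unfold Qc
  simp only [one_mul]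
  have hne : ∀ {m p : ℕ}, Odd m → p ∣ m → p ≠ 2 := by
    rintro m p hm hp rfl
    exact (Nat.not_even_iff_odd.mpr hm) (even_iff_two_dvd.mpr hp)
  constructor
  · rintro ⟨h1, h2⟩
    exact ⟨fun p hp hpc => h1 p hp (hne hc hpc) hpc, fun p hp hpb => h2 p hp (hne hb hpb) hpb⟩
  · rintro ⟨h1, h2⟩
    exact ⟨fun p hp _ hpc => h1 p hp hpc, fun p hp _ hpb => h2 p hp hpb⟩

theorem rep_two (hL : S_LEG) {b c : ℕ} (hsf : Squarefree (b * c)) (hodd : Odd (b * c)) :
    Rep (b * c) (2 * b) ↔ Qc 2 2 b c := by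
  unfold Rep
  rw [hL.2 b c hsf hodd]
  unfold Qc
  rfl

theorem ne_two {m p : ℕ} (hm : Odd m) (hp : p ∣ m) : p ≠ 2 := by
  rintro rfl
  exact (Nat.not_even_iff_odd.mpr hm) (even_iff_two_dvd.mpr hp)

theorem rep_three (hL : S_LEG) {b c : ℕ} (hsf : Squarefree (2 * (b * c))) (hodd : Odd (b * c)) :
    Rep (2 * (b * c)) b ↔ Qc 1 2 b c := by
  have hb : Odd b := Nat.Odd.of_mul_left hodd
  have hc : Odd c := Nat.Odd.of_mul_right hodd
  have e : 2 * (b * c) = b * (2 * c) := by ring
  rw [e] at hsf ⊢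
  unfold Rep
  rw [hL.1 b (2 * c) hsf]
  unfold Qc
  simp only [one_mul]
  push_cast
  constructor
  · rintro ⟨h1, h2⟩
    exact ⟨fun p hp hpc => h1 p hp (ne_two hc hpc) (hpc.mul_left 2),
      fun p hp hpb => h2 p hp (ne_two hb hpb) hpb⟩
  · rintro ⟨h1, h2⟩
    refine ⟨fun p hp hp2 hpc => h1 p hp ?_, fun p hp _ hpb => h2 p hp hpb⟩
    rcases (Nat.Prime.dvd_mul hp).mp hpc with h | h
    · exact absurd ((Nat.prime_dvd_prime_iff_eq hp Nat.prime_two).mp h) hp2
    · exact h

theorem rep_four (hL : S_LEG) {b c : ℕ} (hsf : Squarefree (2 * (b * c))) (hodd : Odd (b * c)) :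
    Rep (2 * (b * c)) (2 * b) ↔ Qc 2 1 b c := by
  have hb : Odd b := Nat.Odd.of_mul_left hodd
  have hc : Odd c := Nat.Odd.of_mul_right hodd
  have e : 2 * (b * c) = (2 * b) * c := by ring
  rw [e] at hsf ⊢
  unfold Rep
  rw [hL.1 (2 * b) c hsf]
  unfold Qc
  simp only [one_mul]
  push_cast
  constructor
  · rintro ⟨h1, h2⟩
    exact ⟨fun p hp hpc => h1 p hp (ne_two hc hpc) hpc,
      fun p hp hpb => h2 p hp (ne_two hb hpb) (hpb.mul_left 2)⟩
  · rintro ⟨h1, h2⟩
    refine ⟨fun p hp _ hpc => h1 p hp hpc, fun p hp hp2 hpb => h2 p hp ?_⟩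
    rcases (Nat.Prime.dvd_mul hp).mp hpb with h | h
    · exact absurd ((Nat.prime_dvd_prime_iff_eq hp Nat.prime_two).mp h) hp2
    · exact h

theorem qn_swap (m : ℕ) : qn 1 2 m = qn 2 1 m := by
  unfold qn
  refine Finset.card_bij' (fun b _ => m / b) (fun b _ => m / b) ?_ ?_ ?_ ?_
  · intro b hb
    obtain ⟨h1, h2⟩ := Finset.mem_filter.mp hb
    obtain ⟨h3, h4⟩ := Nat.mem_divisors.mp h1
    rw [Finset.mem_filter, Nat.mem_divisors]
    refine ⟨⟨Nat.div_dvd_of_dvd h3, h4⟩, ?_⟩
    rw [Nat.div_div_self h3 h4]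
    unfold Qc at h2 ⊢
    exact ⟨fun p hp h => h2.2 p hp h, fun p hp h => h2.1 p hp h⟩
  · intro b hb
    obtain ⟨h1, h2⟩ := Finset.mem_filter.mp hb
    obtain ⟨h3, h4⟩ := Nat.mem_divisors.mp h1
    rw [Finset.mem_filter, Nat.mem_divisors]
    refine ⟨⟨Nat.div_dvd_of_dvd h3, h4⟩, ?_⟩
    rw [Nat.div_div_self h3 h4]
    unfold Qc at h2 ⊢
    exact ⟨fun p hp h => h2.2 p hp h, fun p hp h => h2.1 p hp h⟩
  · intro b hb
    obtain ⟨h1, h2⟩ := Finset.mem_filter.mp hb
    obtain ⟨h3, h4⟩ := Nat.mem_divisors.mp h1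
    exact Nat.div_div_self h3 h4
  · intro b hb
    obtain ⟨h1, h2⟩ := Finset.mem_filter.mp hb
    obtain ⟨h3, h4⟩ := Nat.mem_divisors.mp h1
    exact Nat.div_div_self h3 h4

theorem cnt_odd3 (hL : S_LEG) {n : ℕ} (hn : Squarefree n) (hodd : Odd n) :
    (n.divisors.filter (fun b => Rep n b)).card = qn 1 1 n := by
  unfold qn
  congr 1
  refine Finset.filter_congr (fun b hb => ?_)
  obtain ⟨c, rfl⟩ := Nat.dvd_of_mem_divisors hb
  have hbp : 0 < b := Nat.pos_of_mem_divisors hb
  rw [Nat.mul_div_cancel_left c hbp]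
  exact rep_one hL hn hodd

theorem cnt_odd3' (hL : S_LEG) {n : ℕ} (hn : Squarefree n) (hodd : Odd n) :
    (n.divisors.filter (fun b => Rep n (2 * b))).card = qn 2 2 n := by
  unfold qn
  congr 1
  refine Finset.filter_congr (fun b hb => ?_)
  obtain ⟨c, rfl⟩ := Nat.dvd_of_mem_divisors hb
  have hbp : 0 < b := Nat.pos_of_mem_divisors hb
  rw [Nat.mul_div_cancel_left c hbp]
  exact rep_two hL hn hodd

theorem cnt_even (hL : S_LEG) {n : ℕ} (hn : Squarefree (2 * n)) (hodd : Odd n) :
    (n.divisors.filter (fun b => Rep (2 * n) b)).card = qn 1 2 n := by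
  unfold qn
  congr 1
  refine Finset.filter_congr (fun b hb => ?_)
  obtain ⟨c, rfl⟩ := Nat.dvd_of_mem_divisors hb
  have hbp : 0 < b := Nat.pos_of_mem_divisors hb
  rw [Nat.mul_div_cancel_left c hbp]
  exact rep_three hL hn hodd

theorem cnt_even' (hL : S_LEG) {n : ℕ} (hn : Squarefree (2 * n)) (hodd : Odd n) :
    (n.divisors.filter (fun b => Rep (2 * n) (2 * b))).card = qn 2 1 n := by
  unfold qn
  congr 1
  refine Finset.filter_congr (fun b hb => ?_)
  obtain ⟨c, rfl⟩ := Nat.dvd_of_mem_divisors hb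
  have hbp : 0 < b := Nat.pos_of_mem_divisors hb
  rw [Nat.mul_div_cancel_left c hbp]
  exact rep_four hL hn hodd

/-- The value of `F` at the discriminant of the field of `n`. -/
theorem F_val (hA1 : S_AMB1) (hA : S_AMB) (hS : S_SQ) {F : ℤ → ℕ} (hF : HF F)
    (K : Type) [Field K] [NumberField K] (h2 : Module.finrank ℚ K = 2) (n : ℕ)
    (hn : Squarefree n) (hs : ∃ s : K, s ^ 2 = -(n : K)) (d : ℤ)
    (hd : NumberField.discr K = d) :
    (((Rn n).divisors.filter (fun b => Rep n b)).card : ℝ) = 2 * (F d : ℝ) := by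
  rw [(hF d).1 K h2 hd, count K hA1 hA hS h2 n hn hs]
  push_cast
  rfl

/-- ALG. -/
theorem t_ALG : S_DISC → S_AMB1 → S_AMB → S_SQ → S_LEG → S_ALG := by
  intro hD hA1 hA hS hL F hF k hk
  obtain ⟨hD1, hD2, hD3⟩ := hD
  by_cases hex : ∃ (K : Type) (_ : Field K) (_ : NumberField K),
      Module.finrank ℚ K = 2 ∧ NumberField.discr K = -(k : ℤ)
  · obtain ⟨K, iF, iN, h2, hdk⟩ := hex
    have hneg : NumberField.discr K < 0 := by
      rw [hdk]
      have : (0 : ℤ) < k := by exact_mod_cast hk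
      linarith
    obtain ⟨n, hn, hs⟩ := hD2 K h2 hneg
    have hdisc := hD1 K h2 n hn hs
    have hval := F_val hA1 hA hS hF K h2 n hn hs _ hdk
    rw [hdk] at hdisc
    rcases Nat.even_or_odd n with he | ho
    · -- `n = 2 m`
      obtain ⟨m, rfl⟩ := even_iff_two_dvd.mp he
      have hm : Odd m := by
        rw [← Nat.not_even_iff_odd]
        intro hme
        obtain ⟨l, rfl⟩ := even_iff_two_dvd.mp hme
        have h4 : 2 * 2 ∣ 2 * (2 * l) := ⟨l, by ring⟩
        have := hn 2 h4
        simp at this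
      have hm2 : m % 2 = 1 := Nat.odd_iff.mp hm
      have hmsf : Squarefree m := hn.squarefree_of_dvd (Dvd.intro_left 2 rfl)
      have hR : Rn (2 * m) = 2 * m := by
        unfold Rn
        rw [if_neg (by omega)]
      rw [if_neg (by omega)] at hdisc
      have hk8 : k = 8 * m := by
        push_cast at hdisc
        omega
      rw [hR, card_divisors_two hm, cnt_even hL hn hm, cnt_even' hL hn hm, qn_swap] at hval
      have hko : ¬ osf k := by
        rintro ⟨h, _⟩
        rw [Nat.odd_iff] at h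
        omega
      have hk4 : ¬ (4 ∣ k ∧ osf (k / 4)) := by
        rintro ⟨_, h, _⟩
        rw [Nat.odd_iff] at h
        omega
      have hk88 : 8 ∣ k ∧ osf (k / 8) := by
        have : k / 8 = m := by omega
        rw [this]
        exact ⟨⟨m, hk8⟩, hm, hmsf⟩
      rw [if_neg hko, if_neg hk4, if_pos hk88]
      have e1 : k / 8 = m := by omega
      rw [e1]
      unfold fv
      rw [if_neg (by decide), if_neg (by decide)]
      push_cast at hval
      linarith
    · have hn2 : n % 2 = 1 := Nat.odd_iff.mp ho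
      by_cases h3 : n % 4 = 3
      · rw [if_pos h3] at hdisc
        have hkn : k = n := by omega
        have hR : Rn n = n := by
          unfold Rn
          rw [if_neg (by omega)]
        rw [hR, cnt_odd3 hL hn ho] at hval
        have hko : osf k := by
          rw [hkn]
          exact ⟨ho, hn⟩
        have hk4 : ¬ (4 ∣ k ∧ osf (k / 4)) := by
          rintro ⟨h, _⟩
          omega
        have hk8 : ¬ (8 ∣ k ∧ osf (k / 8)) := by
          rintro ⟨h, _⟩
          omega
        rw [if_pos hko, if_neg hk4, if_neg hk8]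
        unfold fv
        rw [if_pos rfl, hkn, if_pos h3, ← hkn]
        rw [hkn] at hval ⊢
        linarith
      · have h1 : n % 4 = 1 := by omega
        rw [if_neg h3] at hdisc
        have hkn : k = 4 * n := by
          omega
        have hR : Rn n = 2 * n := by
          unfold Rn
          rw [if_pos h1]
        rw [hR, card_divisors_two ho, cnt_odd3 hL hn ho, cnt_odd3' hL hn ho] at hval
        have hko : ¬ osf k := by
          rintro ⟨h, _⟩
          rw [Nat.odd_iff] at h
          omega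
        have e1 : k / 4 = n := by omega
        have hk4 : 4 ∣ k ∧ osf (k / 4) := by
          rw [e1]
          exact ⟨⟨n, hkn⟩, ho, hn⟩
        have hk8 : ¬ (8 ∣ k ∧ osf (k / 8)) := by
          rintro ⟨h, _⟩
          omega
        rw [if_neg hko, if_pos hk4, if_neg hk8, e1]
        unfold fv
        rw [if_neg (by decide), if_pos rfl, if_pos h1]
        push_cast at hval
        linarith
  · rw [(hF (-(k : ℤ))).2 hex]
    -- no field has this discriminant
    have key : ∀ n : ℕ, Squarefree n → (-(k : ℤ) = if n % 4 = 3 then -(n : ℤ) else -(4 * n : ℤ)) →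
        False := by
      intro n hn hk'
      obtain ⟨K, iF, iN, h2, hs⟩ := hD3 n hn
      exact hex ⟨K, iF, iN, h2, by rw [hD1 K h2 n hn hs, hk']⟩
    have t1 : (if osf k then fv 0 k else 0) = 0 := by
      by_cases h : osf k
      · rw [if_pos h]
        unfold fv
        rw [if_pos rfl]
        by_cases h3 : k % 4 = 3
        · exact (key k h.2 (by rw [if_pos h3])).elim
        · rw [if_neg h3]
      · rw [if_neg h]
    have t2 : (if 4 ∣ k ∧ osf (k / 4) then fv 1 (k / 4) else 0) = 0 := by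
      by_cases h : 4 ∣ k ∧ osf (k / 4)
      · rw [if_pos h]
        unfold fv
        rw [if_neg (by decide), if_pos rfl]
        by_cases h1 : (k / 4) % 4 = 1
        · exfalso
          refine key (k / 4) h.2.2 ?_
          rw [if_neg (by omega)]
          obtain ⟨l, hl⟩ := h.1
          have : k / 4 = l := by omega
          rw [this, hl]
          push_cast
          ring
        · rw [if_neg h1]
      · rw [if_neg h]
    have t3 : ¬ (8 ∣ k ∧ osf (k / 8)) := by
      rintro ⟨⟨l, hl⟩, ho, hsf⟩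
      have e1 : k / 8 = l := by omega
      rw [e1] at ho hsf
      have hsf2 : Squarefree (2 * l) := by
        rw [Nat.squarefree_mul_iff]
        exact ⟨Nat.coprime_two_left.mpr ho, Nat.prime_two.squarefree, hsf⟩
      have hl2 : l % 2 = 1 := Nat.odd_iff.mp ho
      refine key (2 * l) hsf2 ?_
      rw [if_neg (by omega), hl]
      push_cast
      ring
    rw [t1, t2, if_neg t3]
    simp

end Pool.Agent.Y473.FK.Alg
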