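import Pool.Agent.Y473.FK.Rad

/-!
# Project FK: Fourier inversion for the weight
-/

set_option autoImplicit false

open Finset MeasureTheory

open scoped Classical

namespace Pool.Agent.Y473.FK

open Pool.Agent.Y755.FK

theorem phi_eq (v : ℝ) : φ v = (max 0 (v * (1 - v))) ^ 2 := by
  unfold φ
  by_cases h : 0 ≤ v ∧ v ≤ 1
  · rw [if_pos h, max_eq_right (mul_nonneg h.1 (by linarith [h.2]))]
  · rw [if_neg h]
    have : v * (1 - v) ≤ 0 := by
      by_cases h0 : 0 ≤ v
      · have h1 : 1 < v := by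
          by_contra h2
          exact h ⟨h0, by linarith⟩
        nlinarith
      · push Not at h0
        nlinarith
    rw [max_eq_left this]
    norm_num

theorem continuous_phi : Continuous φ := by
  have : φ = fun v => (max 0 (v * (1 - v))) ^ 2 := funext phi_eq
  rw [this]
  fun_prop

theorem phi_out {v : ℝ} (h : v ∉ Set.Icc (0 : ℝ) 1) : φ v = 0 := by
  unfold φ
  rw [if_neg (fun hh => h ⟨hh.1, hh.2⟩)]

/-- The weight as a complex function. -/
noncomputable def phc (v : ℝ) : ℂ := ((φ v : ℝ) : ℂ)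

theorem continuous_phc : Continuous phc := Complex.continuous_ofReal.comp continuous_phi

theorem integrable_phc : Integrable phc := by
  apply Continuous.integrable_of_hasCompactSupport continuous_phc
  refine HasCompactSupport.intro (isCompact_Icc (a := (0 : ℝ)) (b := 1)) (fun v hv => ?_)
  unfold phc
  rw [phi_out hv, Complex.ofReal_zero]

theorem Ph_eq (w : ℂ) : Ph w = ∫ v : ℝ, phc v * Complex.exp (-w * v) := by
  unfold Ph
  rw [intervalIntegral.integral_of_le zero_le_one]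
  rw [← setIntegral_eq_integral_of_forall_compl_eq_zero (s := Set.Ioc (0 : ℝ) 1)
    (f := fun v : ℝ => phc v * Complex.exp (-w * v))]
  · refine setIntegral_congr_fun measurableSet_Ioc (fun v hv => ?_)
    show _ = phc v * _
    unfold phc φ
    rw [if_pos ⟨hv.1.le, hv.2⟩]
  · intro v hv
    have : phc v = 0 := by
      unfold phc
      by_cases h0 : v = 0
      · rw [h0]
        unfold φ
        simp
      · rw [phi_out, Complex.ofReal_zero]
        rintro ⟨h1, h2⟩
        exact hv ⟨lt_of_le_of_ne h1 (Ne.symm h0), h2⟩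
    rw [this, zero_mul]

open scoped FourierTransform in
theorem fourier_phc (ξ : ℝ) : 𝓕 phc ξ = Ph (((2 * Real.pi * ξ : ℝ) : ℂ) * Complex.I) := by
  rw [Real.fourier_real_eq_integral_exp_smul, Ph_eq]
  refine integral_congr_ae (Filter.Eventually.of_forall (fun v => ?_))
  show Complex.exp _ • phc v = phc v * Complex.exp _
  rw [smul_eq_mul, mul_comm]
  congr 2
  push_cast
  ring

theorem bound_Ph (hP : S_PHB) : ∃ C : ℝ, ∀ τ : ℝ, ‖Ph ((τ : ℂ) * Complex.I)‖ ≤ C * (1 + τ ^ 2)⁻¹ := by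
  obtain ⟨⟨C, hC⟩, _⟩ := hP
  refine ⟨C, fun τ => ?_⟩
  have h := hC ((τ : ℂ) * Complex.I) (by simp) (by simp)
  have e : ‖(τ : ℂ) * Complex.I‖ ^ 2 = τ ^ 2 := by
    rw [norm_mul, Complex.norm_I, mul_one, Complex.norm_real, Real.norm_eq_abs, sq_abs]
  rw [e, div_eq_mul_inv] at h
  exact h

theorem integrable_Ph (hP : S_PHB) : Integrable (fun τ : ℝ => Ph ((τ : ℂ) * Complex.I)) := by
  obtain ⟨C, hC⟩ := bound_Ph hP
  have hcont : Continuous (fun τ : ℝ => Ph ((τ : ℂ) * Complex.I)) := by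
    have := hP.2.1.continuous
    fun_prop
  exact (integrable_inv_one_add_sq.const_mul C).mono' hcont.aestronglyMeasurable
    (Filter.Eventually.of_forall hC)

open scoped FourierTransform in
theorem phi_inv (hP : S_PHB) (v : ℝ) : ((φ v : ℝ) : ℂ) = (1 / (2 * Real.pi) : ℂ) *
    ∫ τ : ℝ, Ph ((τ : ℂ) * Complex.I) * Complex.exp ((v : ℂ) * ((τ : ℂ) * Complex.I)) := by
  have hI := integrable_Ph hP
  have hF : Integrable (𝓕 phc) := by
    have h1 := hI.comp_mul_left' (R := 2 * Real.pi) (by positivity)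
    refine h1.congr (Filter.Eventually.of_forall (fun ξ => ?_))
    show _ = 𝓕 phc ξ
    rw [fourier_phc]
  have h2 := congrFun (continuous_phc.fourierInv_fourier_eq integrable_phc hF) v
  rw [Real.fourierInv_eq'] at h2
  have h3 : ((φ v : ℝ) : ℂ) = phc v := rfl
  rw [h3, ← h2]
  have h4 : (∫ w : ℝ, Complex.exp (((2 * Real.pi * inner ℝ w v : ℝ) : ℂ) * Complex.I) • 𝓕 phc w)
      = ∫ w : ℝ, (fun τ : ℝ => Ph ((τ : ℂ) * Complex.I) *
        Complex.exp ((v : ℂ) * ((τ : ℂ) * Complex.I))) (2 * Real.pi * w) := by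
    refine integral_congr_ae (Filter.Eventually.of_forall (fun w => ?_))
    show Complex.exp _ • 𝓕 phc w = Ph _ * Complex.exp _
    rw [smul_eq_mul, mul_comm, fourier_phc]
    congr 2
    have : inner ℝ w v = v * w := by
      simp
    rw [this]
    push_cast
    ring
  rw [h4, Measure.integral_comp_mul_left (fun τ : ℝ => Ph ((τ : ℂ) * Complex.I) *
        Complex.exp ((v : ℂ) * ((τ : ℂ) * Complex.I))) (2 * Real.pi)]
  rw [abs_of_pos (by positivity), Complex.real_smul]
  push_cast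
  rw [one_div]

theorem norm_exp_I (a τ : ℝ) : ‖Complex.exp ((a : ℂ) * ((τ : ℂ) * Complex.I))‖ = 1 := by
  have : (a : ℂ) * ((τ : ℂ) * Complex.I) = ((a * τ : ℝ) : ℂ) * Complex.I := by
    push_cast
    ring
  rw [this, Complex.norm_exp_ofReal_mul_I]

theorem integrable_Ph_exp (hP : S_PHB) (a : ℝ) : Integrable (fun τ : ℝ =>
    Ph ((τ : ℂ) * Complex.I) * Complex.exp ((a : ℂ) * ((τ : ℂ) * Complex.I))) := by
  have hI := integrable_Ph hP
  have hcont : Continuous (fun τ : ℝ =>
      Ph ((τ : ℂ) * Complex.I) * Complex.exp ((a : ℂ) * ((τ : ℂ) * Complex.I))) := by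
    have := hP.2.1.continuous
    fun_prop
  refine hI.norm.mono' hcont.aestronglyMeasurable (Filter.Eventually.of_forall (fun τ => ?_))
  rw [norm_mul, norm_exp_I, mul_one]

/-- SEP. -/
theorem t_SEP : S_PHB → S_BIL → S_SEP := by
  intro hP hB
  obtain ⟨C, K, hC, hB⟩ := hB
  set M : ℝ := ∫ τ : ℝ, ‖Ph ((τ : ℂ) * Complex.I)‖ with hM
  have hM0 : 0 ≤ M := integral_nonneg (fun τ => norm_nonneg _)
  refine ⟨1 / (2 * Real.pi) * (M * C), K, by positivity, ?_⟩
  intro X Y α β u hX hY hα hβ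
  set R : ℝ := (X * Y) * (1 + Real.log (X * Y)) ^ K * ((min X Y : ℕ) : ℝ) ^ (-(1 / 8) : ℝ)
    with hR
  set A := (Ioc X (2 * X)).filter osf with hA
  set B := (Ioc Y (2 * Y)).filter osf with hBB
  have h1 : ∑ x ∈ A, ∑ y ∈ B, α x * β y * (J x y : ℂ) *
        ((φ (u - Real.log x - Real.log y) : ℝ) : ℂ) =
      (1 / (2 * Real.pi) : ℂ) * ∫ τ : ℝ, ∑ x ∈ A, ∑ y ∈ B, α x * β y * (J x y : ℂ) *
        (Ph ((τ : ℂ) * Complex.I) * Complex.exp (((u - Real.log x - Real.log y : ℝ) : ℂ) *
          ((τ : ℂ) * Complex.I))) := by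
    rw [integral_finsetSum]
    · rw [Finset.mul_sum]
      refine Finset.sum_congr rfl (fun x _ => ?_)
      rw [integral_finsetSum]
      · rw [Finset.mul_sum]
        refine Finset.sum_congr rfl (fun y _ => ?_)
        rw [integral_const_mul, phi_inv hP]
        ring
      · intro y _
        exact (integrable_Ph_exp hP _).const_mul _
    · intro x _
      refine integrable_finsetSum _ (fun y _ => ?_)
      exact (integrable_Ph_exp hP _).const_mul _
  rw [h1, norm_mul]
  have h2 : ‖(1 / (2 * Real.pi) : ℂ)‖ = 1 / (2 * Real.pi) := by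
    have : (1 / (2 * Real.pi) : ℂ) = ((1 / (2 * Real.pi) : ℝ) : ℂ) := by push_cast; rfl
    rw [this, Complex.norm_real, Real.norm_eq_abs, abs_of_pos (by positivity)]
  rw [h2]
  have h3 : ‖∫ τ : ℝ, ∑ x ∈ A, ∑ y ∈ B, α x * β y * (J x y : ℂ) *
        (Ph ((τ : ℂ) * Complex.I) * Complex.exp (((u - Real.log x - Real.log y : ℝ) : ℂ) *
          ((τ : ℂ) * Complex.I)))‖ ≤ ∫ τ : ℝ, ‖Ph ((τ : ℂ) * Complex.I)‖ * (C * R) := by
    refine norm_integral_le_of_norm_le ((integrable_Ph hP).norm.mul_const _)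
      (Filter.Eventually.of_forall (fun τ => ?_))
    have e1 : ∑ x ∈ A, ∑ y ∈ B, α x * β y * (J x y : ℂ) *
        (Ph ((τ : ℂ) * Complex.I) * Complex.exp (((u - Real.log x - Real.log y : ℝ) : ℂ) *
          ((τ : ℂ) * Complex.I))) =
        Ph ((τ : ℂ) * Complex.I) * Complex.exp ((u : ℂ) * ((τ : ℂ) * Complex.I)) *
        ∑ x ∈ A, ∑ y ∈ B,
          (α x * Complex.exp (((- Real.log x : ℝ) : ℂ) * ((τ : ℂ) * Complex.I))) *
          (β y * Complex.exp (((- Real.log y : ℝ) : ℂ) * ((τ : ℂ) * Complex.I))) *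
          (J x y : ℂ) := by
      rw [Finset.mul_sum]
      refine Finset.sum_congr rfl (fun x _ => ?_)
      rw [Finset.mul_sum]
      refine Finset.sum_congr rfl (fun y _ => ?_)
      have e2 : (((u - Real.log x - Real.log y : ℝ) : ℂ) * ((τ : ℂ) * Complex.I)) =
          (u : ℂ) * ((τ : ℂ) * Complex.I) +
          ((- Real.log x : ℝ) : ℂ) * ((τ : ℂ) * Complex.I) +
          ((- Real.log y : ℝ) : ℂ) * ((τ : ℂ) * Complex.I) := by
        push_cast
        ring
      rw [e2, Complex.exp_add, Complex.exp_add]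
      ring
    rw [e1, norm_mul, norm_mul, norm_exp_I, mul_one]
    apply mul_le_mul_of_nonneg_left _ (norm_nonneg _)
    have h4 := hB X Y
      (fun x => α x * Complex.exp (((- Real.log x : ℝ) : ℂ) * ((τ : ℂ) * Complex.I)))
      (fun y => β y * Complex.exp (((- Real.log y : ℝ) : ℂ) * ((τ : ℂ) * Complex.I))) hX hY
      (fun n => by rw [norm_mul, norm_exp_I, mul_one]; exact hα n)
      (fun n => by rw [norm_mul, norm_exp_I, mul_one]; exact hβ n)
    refine h4.trans (le_of_eq ?_)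
    rw [hR]
    ring
  rw [integral_mul_const] at h3
  have h5 := mul_le_mul_of_nonneg_left h3 (show 0 ≤ 1 / (2 * Real.pi) by positivity)
  refine h5.trans (le_of_eq ?_)
  rw [hR, ← hM]
  ring

/-- PSI. -/
theorem t_PSI : S_PHB → S_PSI := by
  intro hP n u hn
  set c : ℕ → ℝ := fun k => if rad k = n then gk k else 0 with hc
  have hgk0 : gk 0 = 0 := by
    unfold gk
    rw [if_neg (by simp)]
  have hc0 : c 0 = 0 := by
    rw [hc]
    show (if rad 0 = n then gk 0 else 0) = 0
    rw [hgk0, ite_self]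
  -- the terms
  have hF1 : ∀ k : ℕ, Integrable (fun τ : ℝ => ((c k / k : ℝ) : ℂ) *
      (Ph ((τ : ℂ) * Complex.I) * Complex.exp (((u - Real.log k : ℝ) : ℂ) *
        ((τ : ℂ) * Complex.I)))) :=
    fun k => (integrable_Ph_exp hP _).const_mul _
  have hsum1 : Summable (fun k : ℕ => |c k / k|) := by
    have h1 := (hasSum_rad hn (s := 1) (by simp)).summable.norm
    refine h1.congr (fun k => ?_)
    rw [hc]
    show _ = |(if rad k = n then gk k else 0) / (k : ℝ)|
    by_cases hr : rad k = n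
    · rw [if_pos hr, if_pos hr, norm_mul, Complex.norm_real, Complex.cpow_neg, norm_inv,
        Complex.cpow_one, Complex.norm_natCast, abs_div, Real.norm_eq_abs,
        abs_of_nonneg (Nat.cast_nonneg (α := ℝ) k), div_eq_mul_inv]
    · rw [if_neg hr, if_neg hr, zero_div, norm_zero, abs_zero]
  have hnorm : ∀ k : ℕ, (∫ τ : ℝ, ‖((c k / k : ℝ) : ℂ) *
      (Ph ((τ : ℂ) * Complex.I) * Complex.exp (((u - Real.log k : ℝ) : ℂ) *
        ((τ : ℂ) * Complex.I)))‖) = |c k / k| * ∫ τ : ℝ, ‖Ph ((τ : ℂ) * Complex.I)‖ := by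
    intro k
    rw [← integral_const_mul]
    refine integral_congr_ae (Filter.Eventually.of_forall (fun τ => ?_))
    show ‖_‖ = _
    rw [norm_mul, norm_mul, norm_exp_I, mul_one, Complex.norm_real, Real.norm_eq_abs]
  have hF2 : Summable (fun k : ℕ => ∫ τ : ℝ, ‖((c k / k : ℝ) : ℂ) *
      (Ph ((τ : ℂ) * Complex.I) * Complex.exp (((u - Real.log k : ℝ) : ℂ) *
        ((τ : ℂ) * Complex.I)))‖) := by
    simp only [hnorm]
    exact hsum1.mul_right _
  have hmain := hasSum_integral_of_summable_integral_norm hF1 hF2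
  -- the inner sum
  have hinner : ∀ τ : ℝ, ∑' k : ℕ, ((c k / k : ℝ) : ℂ) *
      (Ph ((τ : ℂ) * Complex.I) * Complex.exp (((u - Real.log k : ℝ) : ℂ) *
        ((τ : ℂ) * Complex.I))) = Ph ((τ : ℂ) * Complex.I) *
      ff (1 + (τ : ℂ) * Complex.I) n * Complex.exp ((u : ℂ) * ((τ : ℂ) * Complex.I)) := by
    intro τ
    have h1 := hasSum_rad hn (s := 1 + (τ : ℂ) * Complex.I) (by simp)
    have h2 := h1.mul_left (Ph ((τ : ℂ) * Complex.I) *
      Complex.exp ((u : ℂ) * ((τ : ℂ) * Complex.I)))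
    have h3 : Ph ((τ : ℂ) * Complex.I) * ff (1 + (τ : ℂ) * Complex.I) n *
        Complex.exp ((u : ℂ) * ((τ : ℂ) * Complex.I)) =
        Ph ((τ : ℂ) * Complex.I) * Complex.exp ((u : ℂ) * ((τ : ℂ) * Complex.I)) *
        ff (1 + (τ : ℂ) * Complex.I) n := by ring
    rw [h3, ← h2.tsum_eq]
    refine tsum_congr (fun k => ?_)
    by_cases hk : k = 0
    · rw [hk, hc0, hgk0]
      simp
    by_cases hr : rad k = n
    · have hck : c k = gk k := if_pos hr
      rw [if_pos hr, hck]
      have hk0 : (k : ℂ) ≠ 0 := by exact_mod_cast hk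
      have e1 : (k : ℂ) ^ (-(1 + (τ : ℂ) * Complex.I)) =
          (k : ℂ)⁻¹ * Complex.exp (((-Real.log k : ℝ) : ℂ) * ((τ : ℂ) * Complex.I)) := by
        rw [neg_add, Complex.cpow_add _ _ hk0, Complex.cpow_neg_one,
          Complex.cpow_def_of_ne_zero hk0]
        congr 2
        rw [← Complex.natCast_log]
        push_cast
        ring
      have e2 : Complex.exp (((u - Real.log k : ℝ) : ℂ) * ((τ : ℂ) * Complex.I)) =
          Complex.exp ((u : ℂ) * ((τ : ℂ) * Complex.I)) *
          Complex.exp (((-Real.log k : ℝ) : ℂ) * ((τ : ℂ) * Complex.I)) := by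
        rw [← Complex.exp_add]
        congr 1
        push_cast
        ring
      rw [e1, e2]
      push_cast
      ring
    · have hck : c k = 0 := if_neg hr
      rw [if_neg hr, hck]
      simp
  -- the value of the sum
  have hval : ∀ k : ℕ, (∫ τ : ℝ, ((c k / k : ℝ) : ℂ) *
      (Ph ((τ : ℂ) * Complex.I) * Complex.exp (((u - Real.log k : ℝ) : ℂ) *
        ((τ : ℂ) * Complex.I)))) =
      (2 * Real.pi : ℂ) * ((c k / k * φ (u - Real.log k) : ℝ) : ℂ) := by
    intro k
    rw [integral_const_mul, Complex.ofReal_mul (c k / k), phi_inv hP]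
    have hpi : (2 * Real.pi : ℂ) ≠ 0 := by
      have := Real.pi_ne_zero
      exact mul_ne_zero two_ne_zero (by exact_mod_cast this)
    generalize (∫ τ : ℝ, Ph ((τ : ℂ) * Complex.I) *
      Complex.exp (((u - Real.log k : ℝ) : ℂ) * ((τ : ℂ) * Complex.I))) = I0
    field_simp
  have hfin : HasSum (fun k : ℕ => (2 * Real.pi : ℂ) *
      ((c k / k * φ (u - Real.log k) : ℝ) : ℂ)) ((2 * Real.pi : ℂ) * (Ps n u : ℂ)) := by
    apply HasSum.mul_left
    rw [Complex.hasSum_ofReal]
    have : Ps n u = ∑ k ∈ Icc 1 ⌊Real.exp u⌋₊, c k / k * φ (u - Real.log k) := rfl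
    rw [this]
    apply hasSum_sum_of_ne_finset_zero
    intro k hk
    by_cases hk0 : k = 0
    · rw [hk0, hc0]
      simp
    · have hk1 : 1 ≤ k := Nat.one_le_iff_ne_zero.mpr hk0
      have hk2 : ⌊Real.exp u⌋₊ < k := by
        by_contra h
        exact hk (Finset.mem_Icc.mpr ⟨hk1, by omega⟩)
      have hk3 : Real.exp u < k := (Nat.floor_lt (Real.exp_pos u).le).mp hk2
      have hkpos : (0 : ℝ) < k := by exact_mod_cast hk1
      have hk4 : u < Real.log k := by
        rw [Real.lt_log_iff_exp_lt hkpos]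
        exact hk3
      rw [phi_out (fun hh => by have := hh.1; linarith), mul_zero]
  have hmain2 : HasSum (fun k : ℕ => (2 * Real.pi : ℂ) *
      ((c k / k * φ (u - Real.log k) : ℝ) : ℂ)) (∫ τ : ℝ, Ph ((τ : ℂ) * Complex.I) *
      ff (1 + (τ : ℂ) * Complex.I) n * Complex.exp ((u : ℂ) * ((τ : ℂ) * Complex.I))) := by
    have e3 : (∫ τ : ℝ, Ph ((τ : ℂ) * Complex.I) *
      ff (1 + (τ : ℂ) * Complex.I) n * Complex.exp ((u : ℂ) * ((τ : ℂ) * Complex.I))) =
      ∫ τ : ℝ, ∑' k : ℕ, ((c k / k : ℝ) : ℂ) *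
      (Ph ((τ : ℂ) * Complex.I) * Complex.exp (((u - Real.log k : ℝ) : ℂ) *
        ((τ : ℂ) * Complex.I))) :=
      integral_congr_ae (Filter.Eventually.of_forall (fun τ => (hinner τ).symm))
    rw [e3]
    refine hmain.congr_fun ?_
    intro k
    exact (hval k).symm
  have hu := hfin.unique hmain2
  rw [← hu]
  have hpi : (Real.pi : ℂ) ≠ 0 := by
    have := Real.pi_ne_zero
    exact_mod_cast this
  field_simp

end Pool.Agent.Y473.FK
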