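import Pool.Agent.Y755.FK.Stm

/-!
# Project FK: the sum over the integers with a given radical
-/

set_option autoImplicit false

open Finset

open scoped Classical

namespace Pool.Agent.Y473.FK

open Pool.Agent.Y755.FK

/-- The completely multiplicative function `(-1/2)^Ω(k) k^(-s)`. -/
noncomputable def fh (s : ℂ) : ℕ →* ℂ where
  toFun k := if k = 0 then 0 else (-1 / 2 : ℂ) ^ (k.primeFactorsList.length) * (k : ℂ) ^ (-s)
  map_one' := by simp
  map_mul' := by
    intro a b
    by_cases ha : a = 0
    · simp [ha]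
    by_cases hb : b = 0
    · simp [hb]
    rw [if_neg (mul_ne_zero ha hb), if_neg ha, if_neg hb,
      (Nat.perm_primeFactorsList_mul ha hb).length_eq, List.length_append, pow_add,
      Nat.cast_mul, Complex.natCast_mul_natCast_cpow]
    ring

theorem fh_apply (s : ℂ) {k : ℕ} (hk : k ≠ 0) :
    fh s k = (-1 / 2 : ℂ) ^ (k.primeFactorsList.length) * (k : ℂ) ^ (-s) := by
  show (if k = 0 then 0 else _) = _
  rw [if_neg hk]

theorem fh_prime (s : ℂ) {p : ℕ} (hp : p.Prime) : fh s p = (-1 / 2 : ℂ) * (p : ℂ) ^ (-s) := by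
  rw [fh_apply s hp.ne_zero, Nat.primeFactorsList_prime hp]
  simp

theorem norm_fh {s : ℂ} (hs : 0 < s.re) {p : ℕ} (hp : p.Prime) : ‖fh s p‖ < 1 := by
  rw [fh_prime s hp, norm_mul, Complex.norm_natCast_cpow_of_pos hp.pos]
  have h1 : ‖(-1 / 2 : ℂ)‖ = 1 / 2 := by
    rw [norm_div, norm_neg]
    simp
  have h2 : (p : ℝ) ^ ((-s).re) ≤ 1 := by
    apply Real.rpow_le_one_of_one_le_of_nonpos
    · exact_mod_cast hp.one_lt.le
    · rw [Complex.neg_re]
      linarith
  rw [h1]
  linarith

theorem rad_ne_zero (k : ℕ) : rad k ≠ 0 := by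
  unfold rad
  rw [Finset.prod_ne_zero_iff]
  intro p hp
  exact (Nat.prime_of_mem_primeFactors hp).ne_zero

theorem primeFactors_rad (k : ℕ) : (rad k).primeFactors = k.primeFactors := by
  unfold rad
  exact Nat.primeFactors_prod (fun p hp => Nat.prime_of_mem_primeFactors hp)

theorem rad_eq_iff {n k : ℕ} (hn : Squarefree n) :
    rad k = n ↔ k.primeFactors = n.primeFactors := by
  constructor
  · rintro rfl
    exact (primeFactors_rad k).symm
  · intro h
    unfold rad
    rw [h]
    exact Nat.prod_primeFactors_of_squarefree hn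

theorem squarefree_rad (k : ℕ) : Squarefree (rad k) := by
  have h : ∀ S : Finset ℕ, (∀ p ∈ S, p.Prime) → Squarefree (∏ p ∈ S, p) := by
    intro S
    induction S using Finset.induction_on with
    | empty =>
      intro _
      simp
    | insert a S ha ih =>
      intro hS
      rw [Finset.prod_insert ha]
      have h1 := ih (fun p hp => hS p (Finset.mem_insert_of_mem hp))
      have h2 := hS a (Finset.mem_insert_self a S)
      rw [Nat.squarefree_mul_iff]
      refine ⟨?_, h2.squarefree, h1⟩
      apply Nat.Coprime.prod_right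
      intro p hp
      rw [Nat.coprime_primes h2 (hS p (Finset.mem_insert_of_mem hp))]
      rintro rfl
      exact ha hp
  unfold rad
  exact h _ (fun p hp => Nat.prime_of_mem_primeFactors hp)

theorem length_sqf {n : ℕ} (hn : Squarefree n) :
    n.primeFactorsList.length = n.primeFactors.card := by
  have h0 : n ≠ 0 := hn.ne_zero
  have h := (Nat.squarefree_iff_nodup_primeFactorsList h0).mp hn
  rw [Nat.primeFactors, List.toFinset_card_of_nodup h]

theorem cast_prod_cpow (S : Finset ℕ) (s : ℂ) :
    ((∏ p ∈ S, p : ℕ) : ℂ) ^ s = ∏ p ∈ S, (p : ℂ) ^ s := by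
  induction S using Finset.induction_on with
  | empty => simp
  | insert a S ha ih =>
    rw [Finset.prod_insert ha, Finset.prod_insert ha, Nat.cast_mul,
      Complex.natCast_mul_natCast_cpow, ih]

theorem gk_mul {n m : ℕ} (hn : osf n) (hm : m ∈ Nat.factoredNumbers n.primeFactors) :
    gk (n * m) = (1 / 2 : ℝ) ^ n.primeFactors.card * (-1 / 2 : ℝ) ^ m.primeFactorsList.length := by
  have h0 : n ≠ 0 := hn.2.ne_zero
  obtain ⟨hm0, hmp⟩ := Nat.mem_factoredNumbers_iff_primeFactors_subset.mp hm
  have hodd : Odd m := by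
    rw [← Nat.not_even_iff_odd, even_iff_two_dvd]
    intro h2
    have h3 : 2 ∈ m.primeFactors := by
      rw [Nat.mem_primeFactors]
      exact ⟨Nat.prime_two, h2, hm0⟩
    have h4 := Nat.dvd_of_mem_primeFactors (hmp h3)
    exact (Nat.not_even_iff_odd.mpr hn.1) (even_iff_two_dvd.mpr h4)
  have hpf : (n * m).primeFactors = n.primeFactors := by
    rw [Nat.primeFactors_mul h0 hm0]
    exact Finset.union_eq_left.mpr hmp
  unfold gk om
  rw [if_pos (hn.1.mul hodd), hpf, (Nat.perm_primeFactorsList_mul h0 hm0).length_eq,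
    List.length_append, length_sqf hn.2, Nat.add_sub_cancel_left]

/-- The sum over all `k` with the radical `n`. -/
theorem hasSum_rad {n : ℕ} (hn : osf n) {s : ℂ} (hs : 0 < s.re) :
    HasSum (fun k : ℕ => if rad k = n then (gk k : ℂ) * (k : ℂ) ^ (-s) else 0) (ff s n) := by
  have h0 : n ≠ 0 := hn.2.ne_zero
  have h1 := (EulerProduct.summable_and_hasSum_factoredNumbers_prod_filter_prime_geometric
    (f := fh s) (fun hp => norm_fh hs hp) n.primeFactors).2
  have hinj : Function.Injective
      (fun m : Nat.factoredNumbers n.primeFactors => n * (m : ℕ)) := by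
    intro a b hab
    exact Subtype.ext (Nat.eq_of_mul_eq_mul_left (Nat.pos_of_ne_zero h0) hab)
  have hz : ∀ k ∉ Set.range (fun m : Nat.factoredNumbers n.primeFactors => n * (m : ℕ)),
      (if rad k = n then (gk k : ℂ) * (k : ℂ) ^ (-s) else 0) = 0 := by
    intro k hk
    by_cases hr : rad k = n
    · rw [if_pos hr]
      by_cases hodd : Odd k
      · exfalso
        apply hk
        have hk0 : k ≠ 0 := by
          rintro rfl
          simp at hodd
        have hpf := (rad_eq_iff hn.2).mp hr
        have hdvd : n ∣ k := by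
          rw [← hr]
          unfold rad
          exact Nat.prod_primeFactors_dvd k
        obtain ⟨m, rfl⟩ := hdvd
        have hm0 : m ≠ 0 := right_ne_zero_of_mul hk0
        refine ⟨⟨m, ?_⟩, rfl⟩
        rw [Nat.mem_factoredNumbers_iff_primeFactors_subset]
        refine ⟨hm0, ?_⟩
        rw [← hpf]
        exact Nat.primeFactors_mono (Dvd.intro_left n rfl) hk0
      · have : gk k = 0 := by
          unfold gk
          rw [if_neg hodd]
        rw [this]
        simp
    · rw [if_neg hr]
  rw [← hinj.hasSum_iff hz]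
  have h2 := h1.mul_left ((1 / 2 : ℂ) ^ n.primeFactors.card * (n : ℂ) ^ (-s))
  have hval : (1 / 2 : ℂ) ^ n.primeFactors.card * (n : ℂ) ^ (-s) *
      ∏ p ∈ n.primeFactors with p.Prime, (1 - fh s p)⁻¹ = ff s n := by
    have hf : n.primeFactors.filter (fun p => p.Prime) = n.primeFactors :=
      Finset.filter_true_of_mem (fun p hp => Nat.prime_of_mem_primeFactors hp)
    rw [hf]
    have hnp : (n : ℂ) ^ (-s) = ∏ p ∈ n.primeFactors, (p : ℂ) ^ (-s) := by
      conv_lhs => rw [← Nat.prod_primeFactors_of_squarefree hn.2]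
      exact cast_prod_cpow _ _
    rw [hnp, ← Finset.prod_const, ← Finset.prod_mul_distrib, ← Finset.prod_mul_distrib]
    unfold ff
    refine Finset.prod_congr rfl (fun p hp => ?_)
    have hpp := Nat.prime_of_mem_primeFactors hp
    have hp0 : (p : ℂ) ≠ 0 := by exact_mod_cast hpp.ne_zero
    have hps : (p : ℂ) ^ s ≠ 0 := by
      rw [Complex.cpow_def_of_ne_zero hp0]
      exact Complex.exp_ne_zero _
    have hn1 : (1 - fh s p) ≠ 0 := by
      intro h
      have h3 := norm_fh hs hpp
      have h4 : fh s p = 1 := by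
        rw [sub_eq_zero] at h
        exact h.symm
      rw [h4] at h3
      simp at h3
    have he : 1 - fh s p = (2 * (p : ℂ) ^ s + 1) * ((1 / 2) * (p : ℂ) ^ (-s)) := by
      rw [fh_prime s hpp, Complex.cpow_neg]
      field_simp
      ring
    rw [he, mul_inv]
    have h5 : (1 / 2 : ℂ) * (p : ℂ) ^ (-s) ≠ 0 := by
      rw [Complex.cpow_neg]
      exact mul_ne_zero (by norm_num) (inv_ne_zero hps)
    rw [mul_comm ((2 * (p : ℂ) ^ s + 1)⁻¹), ← mul_assoc, mul_inv_cancel₀ h5, one_mul]
  rw [hval] at h2
  refine h2.congr_fun ?_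
  intro m
  have hm0 : (m : ℕ) ≠ 0 := Nat.ne_zero_of_mem_factoredNumbers m.2
  have hr : rad (n * m) = n := by
    rw [rad_eq_iff hn.2, Nat.primeFactors_mul h0 hm0]
    exact Finset.union_eq_left.mpr (Nat.primeFactors_subset_of_mem_factoredNumbers m.2)
  show (if rad (n * m) = n then _ else _) = _
  rw [if_pos hr, gk_mul hn m.2, fh_apply s hm0]
  push_cast
  rw [Complex.natCast_mul_natCast_cpow]
  ring

end Pool.Agent.Y473.FK
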