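import Pool.Agent.Y473.FK.Rad

/-!
# Project FK: Dirichlet series of `taC` (S_TAC) and of `we` (S_HW)
-/

set_option autoImplicit false

open Finset

open scoped Classical

namespace Pool.Agent.Y473.FK

open Pool.Agent.Y755.FK LSeries

theorem gk_zero : gk 0 = 0 := by
  unfold gk
  rw [if_neg (by simp)]

theorem abs_gk (k : ℕ) : |gk k| ≤ 1 := by
  unfold gk
  by_cases h : Odd k
  · rw [if_pos h, abs_mul, abs_pow, abs_pow]
    have h1 : |(1 / 2 : ℝ)| ^ om k ≤ 1 := by
      apply pow_le_one₀ (abs_nonneg _)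
      rw [abs_of_pos (by norm_num)]
      norm_num
    have h2 : |(-1 / 2 : ℝ)| ^ (k.primeFactorsList.length - om k) ≤ 1 := by
      apply pow_le_one₀ (abs_nonneg _)
      rw [abs_div, abs_neg]
      norm_num
    calc _ ≤ 1 * 1 := mul_le_mul h1 h2 (by positivity) zero_le_one
      _ = 1 := one_mul 1
  · rw [if_neg h]
    simp

theorem abs_J (a : ℤ) (n : ℕ) : |J a n| ≤ 1 := by
  unfold J
  rcases jacobiSym.trichotomy a n with h | h | h <;> rw [h] <;> simp

theorem abs_gD (D : ℤ) (k : ℕ) : |gD D k| ≤ 1 := by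
  unfold gD
  rw [abs_mul]
  calc _ ≤ 1 * 1 := mul_le_mul (abs_gk k) (abs_J _ _) (abs_nonneg _) zero_le_one
    _ = 1 := one_mul 1

theorem summable_gD (D : ℤ) {s : ℂ} (hs : 1 < s.re) :
    LSeriesSummable (fun k => (gD D k : ℂ)) s := by
  refine LSeriesSummable_of_bounded_of_one_lt_re (m := 1) (fun n _ => ?_) hs
  rw [Complex.norm_real]
  exact abs_gD D n

theorem hasSum_rad_L {n : ℕ} (hn : osf n) {s : ℂ} (hs : 0 < s.re) :
    LSeriesHasSum (fun k => if rad k = n then (gk k : ℂ) else 0) s (ff s n) := by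
  have h := hasSum_rad hn hs
  unfold LSeriesHasSum
  refine h.congr_fun ?_
  intro k
  by_cases hk : k = 0
  · rw [hk, LSeries.term_zero, gk_zero]
    simp
  · rw [LSeries.term_of_ne_zero hk]
    by_cases hr : rad k = n
    · rw [if_pos hr, if_pos hr, Complex.cpow_neg, div_eq_mul_inv]
    · rw [if_neg hr, if_neg hr, zero_div]

theorem taC_conv (d : ℕ) (D : ℤ) :
    (fun k => (taC d D k : ℂ)) =
      LSeries.convolution (fun k => if rad k = d then (gk k : ℂ) else 0)
        (fun k => (gD D k : ℂ)) := by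
  rw [LSeries.convolution_def]
  funext k
  rw [Nat.sum_divisorsAntidiagonal (fun a c => (if rad a = d then (gk a : ℂ) else 0) *
    (gD D c : ℂ))]
  unfold taC
  rw [Finset.sum_filter]
  push_cast
  refine Finset.sum_congr rfl (fun a _ => ?_)
  by_cases hr : rad a = d
  · rw [if_pos hr, if_pos hr]
    unfold gD
    push_cast
    ring
  · rw [if_neg hr, if_neg hr, zero_mul, Complex.ofReal_zero]

/-- TAC. -/
theorem t_TAC : S_TAC := by
  intro d κ hd _ s hs
  have h1 := hasSum_rad_L hd (s := s) (by linarith)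
  have h2 := summable_gD (κ * d) hs
  rw [taC_conv]
  refine ⟨h1.LSeriesSummable.convolution h2, ?_⟩
  rw [LSeries_convolution' h1.LSeriesSummable h2, h1.LSeries_eq]

/-- The real form of the sum over the integers with a given radical. -/
theorem hasSum_rad_real {n : ℕ} (hn : osf n) {x : ℝ} (hx : 0 < 1 + x) :
    HasSum (fun k : ℕ => if rad k = n then gk k * (k : ℝ) ^ (-(1 + x)) else 0) (fr x n) := by
  have h := hasSum_rad hn (s := ((1 + x : ℝ) : ℂ)) (by rwa [Complex.ofReal_re])
  rw [← Complex.hasSum_ofReal]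
  have e1 : ff ((1 + x : ℝ) : ℂ) n = ((fr x n : ℝ) : ℂ) := by
    unfold ff fr
    rw [Complex.ofReal_prod]
    refine Finset.prod_congr rfl (fun p _ => ?_)
    have h9 : (((p : ℝ) ^ (1 + x) : ℝ) : ℂ) = (p : ℂ) ^ ((1 : ℂ) + (x : ℂ)) := by
      rw [Complex.ofReal_cpow (Nat.cast_nonneg p)]
      push_cast
      rfl
    push_cast
    rw [h9]
  rw [← e1]
  refine h.congr_fun ?_
  intro k
  by_cases hr : rad k = n
  · rw [if_pos hr, if_pos hr, Complex.ofReal_mul, Complex.ofReal_cpow (Nat.cast_nonneg k)]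
    push_cast
    rfl
  · rw [if_neg hr, if_neg hr, Complex.ofReal_zero]

theorem gk_of_not_osf {k : ℕ} (h : ¬ osf (rad k)) : gk k = 0 := by
  unfold gk
  rw [if_neg]
  intro hodd
  apply h
  refine ⟨?_, squarefree_rad k⟩
  unfold rad
  rw [← Nat.not_even_iff_odd, even_iff_two_dvd]
  intro h2
  have h3 := h2.trans (Nat.prod_primeFactors_dvd k)
  exact (Nat.not_even_iff_odd.mpr hodd) (even_iff_two_dvd.mpr h3)

/-- HW. -/
theorem t_HW : S_ACA → S_HW := by
  intro hA e f he hf x hx
  obtain ⟨_, _, _, hwe, _, _, _⟩ := hA e f e f he hf he hf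
  have h1 := hwe x hx
  have h2 : Summable (fun k : ℕ => if k = 0 then 0 else we e f k * (k : ℝ) ^ (-(1 + x))) := by
    apply Summable.of_norm
    refine h1.congr (fun k => ?_)
    by_cases hk : k = 0
    · rw [if_pos hk, if_pos hk, norm_zero]
    · rw [if_neg hk, if_neg hk, Real.norm_eq_abs, abs_mul,
        abs_of_nonneg (Real.rpow_nonneg (Nat.cast_nonneg k) _)]
  have h3 : HasSum (fun k : ℕ => if k = 1 then bt e f else 0) (bt e f) := by
    have := hasSum_ite_eq (1 : ℕ) (bt e f)
    exact this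
  have h4 := h2.hasSum.add h3
  have h5 : HasSum (fun k : ℕ => gk k * cc e f (rad k) * (k : ℝ) ^ (-(1 + x)))
      (DS (we e f) x + bt e f) := by
    refine h4.congr_fun ?_
    intro k
    by_cases hk : k = 0
    · rw [if_pos hk, hk, gk_zero]
      simp
    · rw [if_neg hk]
      unfold we
      by_cases hk1 : k = 1
      · rw [if_pos hk1, hk1]
        simp
      · rw [if_neg hk1]
        ring
  have h6 := h5.tsum_fiberwise rad
  have h7 : ∀ n : ℕ, (∑' b : rad ⁻¹' {n}, gk (b : ℕ) * cc e f (rad b) * ((b : ℕ) : ℝ) ^ (-(1 + x)))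
      = if osf n then cc e f n * fr x n else 0 := by
    intro n
    rw [tsum_subtype (rad ⁻¹' {n})
      (fun b : ℕ => gk b * cc e f (rad b) * (b : ℝ) ^ (-(1 + x)))]
    by_cases hn : osf n
    · rw [if_pos hn]
      have h8 := (hasSum_rad_real hn (x := x) (by linarith)).mul_left (cc e f n)
      rw [← h8.tsum_eq]
      refine tsum_congr (fun k => ?_)
      by_cases hr : rad k = n
      · rw [Set.indicator_of_mem (by exact hr), if_pos hr, hr]
        ring
      · rw [Set.indicator_of_notMem (by exact hr), if_neg hr, mul_zero]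
    · rw [if_neg hn]
      have : ∀ k : ℕ, (rad ⁻¹' {n}).indicator
          (fun b : ℕ => gk b * cc e f (rad b) * (b : ℝ) ^ (-(1 + x))) k = 0 := by
        intro k
        by_cases hr : rad k = n
        · rw [Set.indicator_of_mem (by exact hr)]
          have h9 : gk k = 0 := gk_of_not_osf (by rw [hr]; exact hn)
          rw [h9]
          simp
        · rw [Set.indicator_of_notMem (by exact hr)]
      rw [tsum_congr this, tsum_zero]
  have h10 : HasSum (fun n : ℕ => if osf n then cc e f n * fr x n else 0)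
      (DS (we e f) x + bt e f) := by
    refine h6.congr_fun ?_
    intro n
    exact (h7 n).symm
  unfold HH
  rw [h10.tsum_eq]
  ring

end Pool.Agent.Y473.FK
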