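import Pool.Agent.Y755.FK.Stm

/-!
# Project FK: one-sided bound for the families (S_TOS)
-/

set_option autoImplicit false

open Finset

open scoped Classical

namespace Pool.Agent.Y473.FK.Tos

open Pool.Agent.Y755.FK

theorem abs_J (a : ℤ) (n : ℕ) : |J a n| ≤ 1 := by
  unfold J
  rcases jacobiSym.trichotomy a n with h | h | h <;> rw [h] <;> simp

theorem mem_KK {κ : ℤ} : κ ∈ KK ↔ κ = 1 ∨ κ = -1 ∨ κ = 2 ∨ κ = -2 := by
  unfold KK
  simp only [Finset.mem_insert, Finset.mem_singleton]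

theorem c_mem (i : Fin 3) (T : Ix) :
    c1 i T ∈ KK ∧ c2 i T ∈ KK ∧ c3 i T ∈ KK ∧ c4 i T ∈ KK := by
  obtain ⟨a, b, c, d⟩ := T
  simp only [mem_KK]
  fin_cases i <;> cases a <;> cases b <;> cases c <;> cases d <;>
    simp [c1, c2, c3, c4, ep, tw]

theorem co_abs (i : Fin 3) (T : Ix) : |co i T| ≤ 1 / 2 := by
  obtain ⟨a, b, c, d⟩ := T
  fin_cases i <;> cases a <;> cases b <;> cases c <;> cases d <;>
    simp [co, sg, ep] <;> norm_num

theorem nt_abs (e f : ℤ) : 0 ≤ nt e f ∧ nt e f ≤ 2 := by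
  unfold nt
  split_ifs <;> norm_num

/-- `(-1/y)` is `1` or `-1` for odd `y`. -/
theorem jac_neg_one {y : ℕ} (_hy : Odd y) : jacobiSym (-1) y = 1 ∨ jacobiSym (-1) y = -1 := by
  rcases jacobiSym.trichotomy (-1) y with h | h | h
  · exfalso
    have hne : jacobiSym (-1) y ≠ 0 := jacobiSym.ne_zero (by simp)
    exact hne h
  · exact Or.inl h
  · exact Or.inr h

theorem inner_sum (d : ℕ) (f : ℤ) (hf : f ∈ KK) (a : ℝ) (t : ℤ → ℝ) :
    ∑ κ ∈ KK.filter (fun κ => ¬ (d = 1 ∧ κ = 1)), (if f = κ then a else 0) * t κ =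
      if ¬ (d = 1 ∧ f = 1) then a * t f else 0 := by
  rw [Finset.sum_filter, Finset.sum_eq_single f]
  · by_cases h : ¬ (d = 1 ∧ f = 1)
    · rw [if_pos h, if_pos h, if_pos rfl]
    · rw [if_neg h, if_neg h]
  · intro κ _ hκ
    have h2 : (if f = κ then a else 0) = 0 := if_neg (fun h => hκ h.symm)
    rw [h2, zero_mul, ite_self]
  · intro h
    exact absurd hf h

/-- The double sum of S_GRP. -/
noncomputable def Sm (e f : ℤ) (z : ℕ) (u : ℝ) : ℝ :=
  ∑ x ∈ (Icc 1 z).filter (fun x => osf x ∧ ¬ (x = 1 ∧ f = 1)), J e x * ta x (f * x) u +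
    ∑ y ∈ (Icc 1 z).filter (fun y => osf y ∧ ¬ (y = 1 ∧ e = 1)),
      J f y * ta y (e * jacobiSym (-1) y * y) u

theorem Sm_eq (e f : ℤ) (he : e ∈ KK) (hf : f ∈ KK) (z : ℕ) (u : ℝ) : Sm e f z u =
    ∑ d ∈ (Icc 1 z).filter osf, ∑ κ ∈ KK.filter (fun κ => ¬ (d = 1 ∧ κ = 1)),
      ((if f = κ then J e d else 0) + (if e * jacobiSym (-1) d = κ then J f d else 0)) *
        ta d (κ * d) u := by
  have h1 : ∀ d ∈ (Icc 1 z).filter osf, ∑ κ ∈ KK.filter (fun κ => ¬ (d = 1 ∧ κ = 1)),
      ((if f = κ then J e d else 0) + (if e * jacobiSym (-1) d = κ then J f d else 0)) *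
        ta d (κ * d) u = (if ¬ (d = 1 ∧ f = 1) then J e d * ta d (f * d) u else 0) +
        (if ¬ (d = 1 ∧ e = 1) then J f d * ta d (e * jacobiSym (-1) d * d) u else 0) := by
    intro d hd
    have hd2 := (Finset.mem_filter.mp hd).2
    have hk : e * jacobiSym (-1) d ∈ KK := by
      rw [mem_KK] at he ⊢
      rcases jac_neg_one hd2.1 with h | h <;> rw [h] <;> rcases he with h | h | h | h <;>
        rw [h] <;> simp
    simp only [add_mul]
    rw [Finset.sum_add_distrib, inner_sum d f hf (J e d) (fun κ => ta d (κ * d) u),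
      inner_sum d (e * jacobiSym (-1) d) hk (J f d) (fun κ => ta d (κ * d) u)]
    congr 1
    by_cases h1 : d = 1
    · subst h1
      simp
    · rw [if_pos (fun h => h1 h.1), if_pos (fun h => h1 h.1)]
  rw [Finset.sum_congr rfl h1, Finset.sum_add_distrib]
  unfold Sm
  rw [← Finset.filter_filter, ← Finset.filter_filter, Finset.sum_filter (s := (Icc 1 z).filter osf),
    Finset.sum_filter (s := (Icc 1 z).filter osf)]

theorem regroup {τ : Type} (D : Finset ℕ) (Q : ℕ → Finset ℤ) (TT : Finset τ) (q a b : τ → ℝ)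
    (A B : τ → ℕ → ℤ → ℝ) (t : ℕ → ℤ → ℝ) :
    ∑ T ∈ TT, q T * (a T * ∑ d ∈ D, ∑ κ ∈ Q d, A T d κ * t d κ +
      b T * ∑ d ∈ D, ∑ κ ∈ Q d, B T d κ * t d κ) =
    ∑ d ∈ D, ∑ κ ∈ Q d, (∑ T ∈ TT, q T * (a T * A T d κ + b T * B T d κ)) * t d κ := by
  have h1 : ∑ d ∈ D, ∑ κ ∈ Q d, (∑ T ∈ TT, q T * (a T * A T d κ + b T * B T d κ)) * t d κ =
      ∑ T ∈ TT, ∑ d ∈ D, ∑ κ ∈ Q d, q T * (a T * A T d κ + b T * B T d κ) * t d κ := by
    rw [Finset.sum_comm]
    refine Finset.sum_congr rfl (fun d _ => ?_)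
    rw [Finset.sum_comm]
    refine Finset.sum_congr rfl (fun κ _ => ?_)
    rw [Finset.sum_mul]
  rw [h1]
  refine Finset.sum_congr rfl (fun T _ => ?_)
  rw [Finset.mul_sum, Finset.mul_sum, ← Finset.sum_add_distrib, Finset.mul_sum]
  refine Finset.sum_congr rfl (fun d _ => ?_)
  rw [Finset.mul_sum, Finset.mul_sum, ← Finset.sum_add_distrib, Finset.mul_sum]
  refine Finset.sum_congr rfl (fun κ _ => ?_)
  ring

theorem main_eq (i : Fin 3) (z : ℕ) (u : ℝ) :
    ∑ T : Ix, co i T * (nt (c1 i T) (c2 i T) * Sm (c3 i T) (c4 i T) z u +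
      nt (c3 i T) (c4 i T) * Sm (c1 i T) (c2 i T) z u) =
    ∑ d ∈ (Icc 1 z).filter osf, ∑ κ ∈ KK.filter (fun κ => ¬ (d = 1 ∧ κ = 1)),
      Kc i κ d * ta d (κ * d) u := by
  have h1 : ∀ T : Ix, co i T * (nt (c1 i T) (c2 i T) * Sm (c3 i T) (c4 i T) z u +
      nt (c3 i T) (c4 i T) * Sm (c1 i T) (c2 i T) z u) =
      co i T * (nt (c1 i T) (c2 i T) *
        ∑ d ∈ (Icc 1 z).filter osf, ∑ κ ∈ KK.filter (fun κ => ¬ (d = 1 ∧ κ = 1)),
      ((if c4 i T = κ then J (c3 i T) d else 0) +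
        (if c3 i T * jacobiSym (-1) d = κ then J (c4 i T) d else 0)) * ta d (κ * d) u +
      nt (c3 i T) (c4 i T) *
        ∑ d ∈ (Icc 1 z).filter osf, ∑ κ ∈ KK.filter (fun κ => ¬ (d = 1 ∧ κ = 1)),
      ((if c2 i T = κ then J (c1 i T) d else 0) +
        (if c1 i T * jacobiSym (-1) d = κ then J (c2 i T) d else 0)) * ta d (κ * d) u) := by
    intro T
    obtain ⟨m1, m2, m3, m4⟩ := c_mem i T
    rw [Sm_eq _ _ m3 m4, Sm_eq _ _ m1 m2]
  rw [Finset.sum_congr rfl (fun T _ => h1 T)]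
  rw [regroup ((Icc 1 z).filter osf) (fun d => KK.filter (fun κ => ¬ (d = 1 ∧ κ = 1)))
    (Finset.univ : Finset Ix) (co i) (fun T => nt (c1 i T) (c2 i T))
    (fun T => nt (c3 i T) (c4 i T))
    (fun T d κ => (if c4 i T = κ then J (c3 i T) d else 0) +
        (if c3 i T * jacobiSym (-1) d = κ then J (c4 i T) d else 0))
    (fun T d κ => (if c2 i T = κ then J (c1 i T) d else 0) +
        (if c1 i T * jacobiSym (-1) d = κ then J (c2 i T) d else 0))
    (fun d κ => ta d (κ * d) u)]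
  rfl

theorem Kc_le (i : Fin 3) (κ : ℤ) (d : ℕ) : Kc i κ d ≤ 64 := by
  have hterm : ∀ (P : Prop) [Decidable P] (a : ℤ), |(if P then J a d else 0)| ≤ 1 := by
    intro P _ a
    split_ifs
    · exact abs_J a d
    · simp
  have h1 : ∀ T : Ix, co i T * (nt (c1 i T) (c2 i T) * ((if c4 i T = κ then J (c3 i T) d else 0) +
      (if c3 i T * jacobiSym (-1) d = κ then J (c4 i T) d else 0)) +
    nt (c3 i T) (c4 i T) * ((if c2 i T = κ then J (c1 i T) d else 0) +
      (if c1 i T * jacobiSym (-1) d = κ then J (c2 i T) d else 0))) ≤ 4 := by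
    intro T
    refine (le_abs_self _).trans ?_
    rw [abs_mul]
    have a1 := hterm (c4 i T = κ) (c3 i T)
    have a2 := hterm (c3 i T * jacobiSym (-1) d = κ) (c4 i T)
    have a3 := hterm (c2 i T = κ) (c1 i T)
    have a4 := hterm (c1 i T * jacobiSym (-1) d = κ) (c2 i T)
    have n1 := nt_abs (c1 i T) (c2 i T)
    have n2 := nt_abs (c3 i T) (c4 i T)
    have b1 : ∀ (n p q : ℝ), 0 ≤ n → n ≤ 2 → |p| ≤ 1 → |q| ≤ 1 → |n * (p + q)| ≤ 4 := by
      intro n p q h0 h2 hp hq
      rw [abs_mul, abs_of_nonneg h0]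
      have : |p + q| ≤ 2 := (abs_add_le p q).trans (by linarith)
      nlinarith [abs_nonneg (p + q)]
    have b2 := b1 _ _ _ n1.1 n1.2 a1 a2
    have b3 := b1 _ _ _ n2.1 n2.2 a3 a4
    have b4 := (abs_add_le _ _).trans (add_le_add b2 b3)
    have b5 := co_abs i T
    calc _ ≤ (1 / 2) * (4 + 4) := mul_le_mul b5 b4 (abs_nonneg _) (by norm_num)
      _ = 4 := by norm_num
  unfold Kc
  calc _ ≤ ∑ _T : Ix, (4 : ℝ) := Finset.sum_le_sum (fun T _ => h1 T)
    _ = 64 := by
      rw [Finset.sum_const, nsmul_eq_mul]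
      have : (Finset.univ : Finset Ix).card = 16 := by
        rw [Finset.card_univ]
        simp [Ix]
      rw [this]
      norm_num

/-- The inequality with a free parameter `z`. -/
theorem basic {C1 : ℝ} {K : ℕ} (hC1 : 0 ≤ C1)
    (hG : ∀ (u : ℝ) (z : ℕ) (e f : ℤ), 1 ≤ u → 1 ≤ z →
      (z : ℝ) ≤ Real.exp (u / 8) → e ∈ KK → f ∈ KK →
      |tt e f u - ∑ x ∈ (Icc 1 z).filter (fun x => osf x ∧ ¬ (x = 1 ∧ f = 1)),
        J e x * ta x (f * x) u -
      ∑ y ∈ (Icc 1 z).filter (fun y => osf y ∧ ¬ (y = 1 ∧ e = 1)),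
        J f y * ta y (e * jacobiSym (-1) y * y) u| ≤ C1 * (1 + u) ^ K * (z : ℝ) ^ (-(1 / 8) : ℝ))
    (hK : S_KPOS) {c C2 : ℝ} (hC2 : 0 ≤ C2)
    (hO : ∀ (u : ℝ) (d : ℕ) (κ : ℤ), 1 ≤ u → osf d →
      κ ∈ KK → ¬ (d = 1 ∧ κ = 1) → (d : ℝ) ≤ Real.exp (√u) →
      ta d (κ * d) u ≤ C2 * Real.exp (-(c * √u)))
    (i : Fin 3) (u : ℝ) (z : ℕ) (hu : 1 ≤ u) (hz : 1 ≤ z) (hz8 : (z : ℝ) ≤ Real.exp (u / 8))
    (hzs : (z : ℝ) ≤ Real.exp (√u)) :
    tfam i u ≤ 256 * z * (C2 * Real.exp (-(c * √u))) +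
      32 * (C1 * (1 + u) ^ K * (z : ℝ) ^ (-(1 / 8) : ℝ)) := by
  set R : ℝ := C1 * (1 + u) ^ K * (z : ℝ) ^ (-(1 / 8) : ℝ) with hR
  have hR0 : 0 ≤ R := by
    have : 0 ≤ 1 + u := by linarith
    positivity
  have h1 : ∀ e f : ℤ, e ∈ KK → f ∈ KK → |tt e f u - Sm e f z u| ≤ R := by
    intro e f he hf
    have := hG u z e f hu hz hz8 he hf
    unfold Sm
    rw [← sub_sub]
    exact this
  have h2 : tfam i u - ∑ T : Ix, co i T * (nt (c1 i T) (c2 i T) * Sm (c3 i T) (c4 i T) z u +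
      nt (c3 i T) (c4 i T) * Sm (c1 i T) (c2 i T) z u) ≤ 32 * R := by
    unfold tfam
    rw [← Finset.sum_sub_distrib]
    calc _ ≤ ∑ _T : Ix, 2 * R := by
          refine Finset.sum_le_sum (fun T _ => ?_)
          obtain ⟨m1, m2, m3, m4⟩ := c_mem i T
          have e1 := h1 _ _ m3 m4
          have e2 := h1 _ _ m1 m2
          have n1 := nt_abs (c1 i T) (c2 i T)
          have n2 := nt_abs (c3 i T) (c4 i T)
          have e3 : co i T * (nt (c1 i T) (c2 i T) * tt (c3 i T) (c4 i T) u +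
              nt (c3 i T) (c4 i T) * tt (c1 i T) (c2 i T) u) -
              co i T * (nt (c1 i T) (c2 i T) * Sm (c3 i T) (c4 i T) z u +
              nt (c3 i T) (c4 i T) * Sm (c1 i T) (c2 i T) z u) =
              co i T * (nt (c1 i T) (c2 i T) * (tt (c3 i T) (c4 i T) u -
                Sm (c3 i T) (c4 i T) z u) +
              nt (c3 i T) (c4 i T) * (tt (c1 i T) (c2 i T) u - Sm (c1 i T) (c2 i T) z u)) := by
            ring
          rw [e3]
          refine (le_abs_self _).trans ?_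
          rw [abs_mul]
          have b1 : ∀ (n p : ℝ), 0 ≤ n → n ≤ 2 → |p| ≤ R → |n * p| ≤ 2 * R := by
            intro n p h0 h2 hp
            rw [abs_mul, abs_of_nonneg h0]
            exact mul_le_mul h2 hp (abs_nonneg p) (by norm_num)
          have b2 := (abs_add_le _ _).trans
            (add_le_add (b1 _ _ n1.1 n1.2 e1) (b1 _ _ n2.1 n2.2 e2))
          calc _ ≤ (1 / 2) * (2 * R + 2 * R) :=
                mul_le_mul (co_abs i T) b2 (abs_nonneg _) (by norm_num)
            _ = 2 * R := by ring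
      _ = 32 * R := by
        rw [Finset.sum_const, nsmul_eq_mul]
        have : (Finset.univ : Finset Ix).card = 16 := by
          rw [Finset.card_univ]
          simp [Ix]
        rw [this]
        ring
  rw [main_eq] at h2
  set E : ℝ := C2 * Real.exp (-(c * √u)) with hE
  have hE0 : 0 ≤ E := by positivity
  have h3 : ∑ d ∈ (Icc 1 z).filter osf, ∑ κ ∈ KK.filter (fun κ => ¬ (d = 1 ∧ κ = 1)),
      Kc i κ d * ta d (κ * d) u ≤ 256 * z * E := by
    calc _ ≤ ∑ _d ∈ (Icc 1 z).filter osf, 256 * E := by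
          refine Finset.sum_le_sum (fun d hd => ?_)
          obtain ⟨hd1, hd2⟩ := Finset.mem_filter.mp hd
          have hdz := (Finset.mem_Icc.mp hd1).2
          have hds : (d : ℝ) ≤ Real.exp (√u) := le_trans (by exact_mod_cast hdz) hzs
          calc _ ≤ ∑ _κ ∈ KK.filter (fun κ => ¬ (d = 1 ∧ κ = 1)), 64 * E := by
                refine Finset.sum_le_sum (fun κ hκ => ?_)
                obtain ⟨hκ1, hκ2⟩ := Finset.mem_filter.mp hκ
                have k0 := hK i κ d hκ1 hd2.1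
                have k1 := Kc_le i κ d
                have k2 := hO u d κ hu hd2 hκ1 hκ2 hds
                calc _ ≤ Kc i κ d * E := mul_le_mul_of_nonneg_left k2 k0
                  _ ≤ 64 * E := mul_le_mul_of_nonneg_right k1 hE0
            _ = ((KK.filter (fun κ => ¬ (d = 1 ∧ κ = 1))).card : ℝ) * (64 * E) := by
                rw [Finset.sum_const, nsmul_eq_mul]
            _ ≤ 4 * (64 * E) := by
                apply mul_le_mul_of_nonneg_right _ (by positivity)
                have : (KK.filter (fun κ => ¬ (d = 1 ∧ κ = 1))).card ≤ KK.card :=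
                  Finset.card_filter_le _ _
                have h4 : KK.card ≤ 4 := by
                  unfold KK
                  exact Finset.card_le_four
                exact_mod_cast this.trans h4
            _ = 256 * E := by ring
      _ = (((Icc 1 z).filter osf).card : ℝ) * (256 * E) := by
          rw [Finset.sum_const, nsmul_eq_mul]
      _ ≤ z * (256 * E) := by
          apply mul_le_mul_of_nonneg_right _ (by positivity)
          have : ((Icc 1 z).filter osf).card ≤ (Icc 1 z).card := Finset.card_filter_le _ _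
          rw [Nat.card_Icc, Nat.add_sub_cancel] at this
          exact_mod_cast this
      _ = 256 * z * E := by ring
  linarith

theorem poly_exp (K : ℕ) {a : ℝ} (ha : 0 < a) {u : ℝ} (hu : 1 ≤ u) :
    (1 + u) ^ K * Real.exp (-(a * √u)) ≤ 2 ^ K * ((2 * K).factorial / a ^ (2 * K)) := by
  have hs : 0 ≤ √u := Real.sqrt_nonneg u
  have h1 : (1 + u) ^ K ≤ 2 ^ K * √u ^ (2 * K) := by
    rw [pow_mul, Real.sq_sqrt (by linarith), ← mul_pow]
    exact pow_le_pow_left₀ (by linarith) (by linarith) K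
  have h2 := Real.pow_div_factorial_le_exp (a * √u) (by positivity) (2 * K)
  have hf : (0 : ℝ) < (2 * K).factorial := by exact_mod_cast Nat.factorial_pos _
  have h3 : √u ^ (2 * K) ≤ ((2 * K).factorial / a ^ (2 * K)) * Real.exp (a * √u) := by
    rw [div_le_iff₀ hf, mul_pow] at h2
    rw [div_mul_eq_mul_div, le_div_iff₀ (by positivity)]
    linarith
  have he : 0 < Real.exp (-(a * √u)) := Real.exp_pos _
  calc (1 + u) ^ K * Real.exp (-(a * √u)) ≤ 2 ^ K * √u ^ (2 * K) * Real.exp (-(a * √u)) :=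
        mul_le_mul_of_nonneg_right h1 he.le
    _ ≤ 2 ^ K * (((2 * K).factorial / a ^ (2 * K)) * Real.exp (a * √u)) *
        Real.exp (-(a * √u)) := by
        apply mul_le_mul_of_nonneg_right _ he.le
        exact mul_le_mul_of_nonneg_left h3 (by positivity)
    _ = 2 ^ K * ((2 * K).factorial / a ^ (2 * K)) := by
        rw [mul_assoc, mul_assoc, ← Real.exp_add, add_neg_cancel, Real.exp_zero, mul_one]

/-- TOS. -/
theorem t_TOS : S_GRP → S_KPOS → S_OS → S_TOS := by
  intro hG hK hO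
  obtain ⟨C1, K, hC1, hG⟩ := hG
  obtain ⟨c, C2, hc, hC2, hO⟩ := hO
  have hbasic := basic hC1 hG hK hC2 hO
  set c1 : ℝ := min (c / 4) 1 with hc1
  have hc1p : 0 < c1 := lt_min (by positivity) one_pos
  have hc1a : c1 ≤ c / 4 := min_le_left _ _
  have hc1b : c1 ≤ 1 := min_le_right _ _
  set a : ℝ := c1 / 16 with ha
  have hap : 0 < a := by positivity
  set P : ℝ := 2 ^ K * ((2 * K).factorial / a ^ (2 * K)) with hP
  have hP0 : 0 ≤ P := by positivity
  set M : ℝ := 256 * C2 + 32 * (C1 * 65 ^ K) with hM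
  have hM0 : 0 ≤ M := by positivity
  refine ⟨a, M * Real.exp (a * 8) + (256 * C2 + 64 * (C1 * P)), hap, by positivity, ?_⟩
  intro i u hu
  have hs1 : 0 ≤ √u := Real.sqrt_nonneg u
  rcases lt_or_ge u 64 with h64 | h64
  · have h1 := hbasic i u 1 hu le_rfl
      (by rw [Nat.cast_one]; exact Real.one_le_exp (by linarith))
      (by rw [Nat.cast_one]; exact Real.one_le_exp hs1)
    rw [Nat.cast_one, Real.one_rpow, mul_one, mul_one] at h1
    have e1 : Real.exp (-(c * √u)) ≤ 1 := by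
      rw [Real.exp_le_one_iff]
      have : 0 ≤ c * √u := by positivity
      linarith
    have e2 : (1 + u) ^ K ≤ 65 ^ K := pow_le_pow_left₀ (by linarith) (by linarith) K
    have e3 : tfam i u ≤ M := by
      have e4 := mul_le_mul_of_nonneg_left e1 hC2
      have e5 := mul_le_mul_of_nonneg_left e2 hC1
      rw [hM]
      linarith
    have hs8 : √u ≤ 8 := by
      rw [Real.sqrt_le_left (by norm_num)]
      linarith
    have e6 : 1 ≤ Real.exp (a * 8) * Real.exp (-(a * √u)) := by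
      rw [← Real.exp_add]
      apply Real.one_le_exp
      nlinarith
    calc tfam i u ≤ M := e3
      _ ≤ M * (Real.exp (a * 8) * Real.exp (-(a * √u))) := by
          exact le_mul_of_one_le_right hM0 e6
      _ ≤ _ := by
          rw [add_mul, ← mul_assoc]
          have : 0 ≤ (256 * C2 + 64 * (C1 * P)) * Real.exp (-(a * √u)) := by positivity
          linarith
  · have hs8 : 8 ≤ √u := by
      apply Real.le_sqrt_of_sq_le
      linarith
    have hsq : √u * √u = u := Real.mul_self_sqrt (by linarith)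
    set X : ℝ := Real.exp (c1 * √u) with hX
    have hX1 : 1 ≤ X := Real.one_le_exp (by positivity)
    have hz1 : 1 ≤ ⌊X⌋₊ := by
      rw [Nat.one_le_floor_iff]
      exact hX1
    have hzX : ((⌊X⌋₊ : ℕ) : ℝ) ≤ X := Nat.floor_le (by linarith)
    have hzh : X / 2 ≤ ((⌊X⌋₊ : ℕ) : ℝ) := by
      have h1 := Nat.lt_floor_add_one X
      have h2 : (1 : ℝ) ≤ ((⌊X⌋₊ : ℕ) : ℝ) := by exact_mod_cast hz1
      linarith
    have hXs : X ≤ Real.exp (√u) := by
      apply Real.exp_le_exp.mpr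
      nlinarith
    have hX8 : X ≤ Real.exp (u / 8) := by
      apply Real.exp_le_exp.mpr
      nlinarith
    have h1 := hbasic i u ⌊X⌋₊ hu hz1 (hzX.trans hX8) (hzX.trans hXs)
    have t1 : 256 * ((⌊X⌋₊ : ℕ) : ℝ) * (C2 * Real.exp (-(c * √u))) ≤
        256 * C2 * Real.exp (-(a * √u)) := by
      have g1 : ((⌊X⌋₊ : ℕ) : ℝ) * Real.exp (-(c * √u)) ≤ Real.exp (-(a * √u)) := by
        calc _ ≤ X * Real.exp (-(c * √u)) :=
              mul_le_mul_of_nonneg_right hzX (Real.exp_pos _).le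
          _ = Real.exp (c1 * √u + -(c * √u)) := by rw [hX, Real.exp_add]
          _ ≤ Real.exp (-(a * √u)) := by
              apply Real.exp_le_exp.mpr
              have : c1 - c + a ≤ 0 := by
                rw [ha]
                linarith
              nlinarith
      have := mul_le_mul_of_nonneg_left g1 (show 0 ≤ 256 * C2 by positivity)
      linarith
    have t2 : C1 * (1 + u) ^ K * ((⌊X⌋₊ : ℕ) : ℝ) ^ (-(1 / 8) : ℝ) ≤
        2 * (C1 * P) * Real.exp (-(a * √u)) := by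
      have g1 : ((⌊X⌋₊ : ℕ) : ℝ) ^ (-(1 / 8) : ℝ) ≤ 2 * Real.exp (-(2 * a * √u)) := by
        calc _ ≤ (X / 2) ^ (-(1 / 8) : ℝ) :=
              Real.rpow_le_rpow_of_nonpos (by positivity) hzh (by norm_num)
          _ = X ^ (-(1 / 8) : ℝ) / (2 : ℝ) ^ (-(1 / 8) : ℝ) :=
              Real.div_rpow (by positivity) (by norm_num) _
          _ = X ^ (-(1 / 8) : ℝ) * (2 : ℝ) ^ ((1 / 8) : ℝ) := by
              rw [Real.rpow_neg (by norm_num : (0 : ℝ) ≤ 2), div_inv_eq_mul]
          _ = Real.exp (-(2 * a * √u)) * (2 : ℝ) ^ ((1 / 8) : ℝ) := by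
              rw [hX, ← Real.exp_mul]
              congr 2
              rw [ha]
              ring
          _ ≤ Real.exp (-(2 * a * √u)) * 2 := by
              apply mul_le_mul_of_nonneg_left _ (Real.exp_pos _).le
              calc (2 : ℝ) ^ ((1 / 8) : ℝ) ≤ (2 : ℝ) ^ (1 : ℝ) :=
                    Real.rpow_le_rpow_of_exponent_le (by norm_num) (by norm_num)
                _ = 2 := Real.rpow_one 2
          _ = _ := by ring
      have g2 := poly_exp K hap hu
      have g3 : 0 ≤ C1 * (1 + u) ^ K := by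
        have : 0 ≤ 1 + u := by linarith
        positivity
      calc _ ≤ C1 * (1 + u) ^ K * (2 * Real.exp (-(2 * a * √u))) :=
            mul_le_mul_of_nonneg_left g1 g3
        _ = 2 * C1 * ((1 + u) ^ K * Real.exp (-(a * √u))) * Real.exp (-(a * √u)) := by
            have : -(2 * a * √u) = -(a * √u) + -(a * √u) := by ring
            rw [this, Real.exp_add]
            ring
        _ ≤ 2 * C1 * P * Real.exp (-(a * √u)) := by
            apply mul_le_mul_of_nonneg_right _ (Real.exp_pos _).le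
            exact mul_le_mul_of_nonneg_left g2 (by positivity)
        _ = _ := by ring
    have t3 : 0 ≤ M * Real.exp (a * 8) * Real.exp (-(a * √u)) := by positivity
    calc tfam i u ≤ _ := h1
      _ ≤ 256 * C2 * Real.exp (-(a * √u)) + 32 * (2 * (C1 * P) * Real.exp (-(a * √u))) := by
          linarith
      _ ≤ _ := by
          rw [add_mul]
          linarith

end Pool.Agent.Y473.FK.Tos
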